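import Pool.Agent.H.MP_fb8dd6_al.A

set_option autoImplicit false

namespace Pool.Agent.H.MP_6f07cb_gt

open PowerSeries MonoidAlgebra Pool.Agent.H.MP_fb8dd6_al Pool.Agent.H.MP_baf2fc_al Finset

theorem ps_cone' {G A : Type} [Group G] [Ring A] (Q : A → Prop) (q1 : ∀ a b, Q a → Q b → Q (a + b))
    (q2 : ¬ Q 0) (q3 : ∀ a, a ≠ 0 → Q a ∨ Q (-a)) (ν : G →* (PowerSeries A)ˣ)
    (inj : ∀ g, (ν g : PowerSeries A) - 1 = 0 → g = 1)
    (c1 : ∀ g, constantCoeff (ν g : PowerSeries A) = 1) :
    GCone {g | ∃ (d : ℕ) (s : PowerSeries A), (ν g : PowerSeries A) - 1 = X ^ d * s ∧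
      Q (constantCoeff s)} := by
  classical
  have cm : ∀ (u : PowerSeries A) (d : ℕ), u * X ^ d = X ^ d * u :=
    fun u d => ((commute_X u).pow_right d).eq
  refine ⟨?_, ?_, ?_, ?_⟩
  · rintro a ⟨d, s, h1, h2⟩ b ⟨e, t, h3, h4⟩
    have e0 : (ν (a * b) : PowerSeries A) - 1 = (ν a - 1) + (ν b - 1) + (ν a - 1) * (ν b - 1) := by
      rw [map_mul, Units.val_mul]; noncomm_ring
    rcases lt_trichotomy d e with h | rfl | h
    · obtain ⟨m, rfl⟩ := Nat.exists_eq_add_of_lt h
      refine ⟨d, s + X ^ (m + 1) * t + s * ((ν b : PowerSeries A) - 1), ?_, by simpa [c1] using h2⟩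
      rw [mul_add, mul_add, ← mul_assoc, ← pow_add, ← add_assoc, ← h3, ← mul_assoc, ← h1, e0]
    · refine ⟨d, s + t + s * ((ν b : PowerSeries A) - 1), ?_, by simpa [c1] using q1 _ _ h2 h4⟩
      rw [mul_add, mul_add, ← h3, ← mul_assoc, ← h1, e0]
    · obtain ⟨m, rfl⟩ := Nat.exists_eq_add_of_lt h
      refine ⟨e, X ^ (m + 1) * s + t + ((ν a : PowerSeries A) - 1) * t, ?_, by simpa [c1] using h4⟩
      rw [mul_add, mul_add, ← mul_assoc, ← pow_add, ← add_assoc, ← h1, ← mul_assoc (X ^ e),
        ← cm ((ν a : PowerSeries A) - 1), mul_assoc, ← h3, e0]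
  · rintro ⟨d, s, h1, h2⟩
    have h3 : s = 0 := by
      ext1 n
      have := congrArg (PowerSeries.coeff (n + d)) h1
      rw [coeff_X_pow_mul] at this
      simpa using this.symm
    exact q2 (by simpa [h3] using h2)
  · intro a ha
    have h0 : (ν a : PowerSeries A) - 1 ≠ 0 := fun h => ha (inj a h)
    have hex : ∃ n, PowerSeries.coeff n ((ν a : PowerSeries A) - 1) ≠ 0 := by
      by_contra h
      push Not at h
      exact h0 (by ext1 n; rw [h n, map_zero])
    obtain ⟨d, hd1, hd2⟩ : ∃ d, PowerSeries.coeff d ((ν a : PowerSeries A) - 1) ≠ 0 ∧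
        ∀ m < d, PowerSeries.coeff m ((ν a : PowerSeries A) - 1) = 0 :=
      ⟨Nat.find hex, Nat.find_spec hex, fun m hm => not_not.1 (Nat.find_min hex hm)⟩
    obtain ⟨s, hs⟩ : (X : PowerSeries A) ^ d ∣ (ν a : PowerSeries A) - 1 := X_pow_dvd_iff.2 hd2
    have h1 : constantCoeff s ≠ 0 := by
      have := coeff_X_pow_mul s d 0
      rw [zero_add, ← hs, coeff_zero_eq_constantCoeff_apply] at this
      rwa [← this]
    rcases q3 _ h1 with h | h
    · exact Or.inl ⟨_, s, hs, h⟩
    · refine Or.inr ⟨d, -s * ν a⁻¹, ?_, by rwa [map_mul, c1, mul_one, map_neg]⟩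
      rw [neg_mul, mul_neg, ← mul_assoc, ← hs, sub_mul, ← Units.val_mul, ← map_mul, mul_inv_cancel,
        map_one, Units.val_one, one_mul, neg_sub]
  · rintro a ⟨d, s, h1, h2⟩ g
    refine ⟨d, ν g * s * ν g⁻¹, ?_, by rwa [map_mul, map_mul, c1, c1, mul_one, one_mul]⟩
    rw [← mul_assoc, ← mul_assoc, ← cm (ν g : PowerSeries A), mul_assoc (ν g : PowerSeries A),
      ← h1, mul_sub, sub_mul, mul_one, ← Units.val_mul, ← Units.val_mul, ← Units.val_mul,
      ← map_mul, ← map_mul, ← map_mul, mul_inv_cancel, map_one, Units.val_one]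


noncomputable def diag {A : Type} [Ring A] : PowerSeries (PowerSeries A) →+* PowerSeries A where
  toFun F := PowerSeries.mk fun n =>
    ∑ p ∈ antidiagonal n, PowerSeries.coeff p.1 (PowerSeries.coeff p.2 F)
  map_zero' := by ext n; simp
  map_add' F G := by ext n; simp [sum_add_distrib]
  map_one' := by
    ext n
    simp only [coeff_mk, coeff_one]
    rw [sum_eq_single (n, 0)]
    · simp [coeff_one]
    · rintro ⟨a, b⟩ h1 h2
      have : b ≠ 0 := by
        rintro rfl
        simp at h1
        exact h2 (by rw [h1])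
      simp [this]
    · simp
  map_mul' F G := by
    ext n
    simp only [coeff_mk, PowerSeries.coeff_mul, map_sum, sum_mul_sum, sum_sigma']
    refine sum_nbij'
      (fun x => ⟨(x.2.2.1 + x.2.1.1, x.2.2.2 + x.2.1.2), (x.2.2.1, x.2.1.1), (x.2.2.2, x.2.1.2)⟩)
      (fun x => ⟨(x.2.1.1 + x.2.2.1, x.2.1.2 + x.2.2.2), (x.2.1.2, x.2.2.2), (x.2.1.1, x.2.2.1)⟩)
      ?_ ?_ ?_ ?_ ?_
    · rintro ⟨⟨a, b⟩, ⟨c, d⟩, ⟨e, f⟩⟩ h
      simp only [mem_sigma, HasAntidiagonal.mem_antidiagonal, and_true] at h ⊢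
      omega
    · rintro ⟨⟨a, b⟩, ⟨c, d⟩, ⟨e, f⟩⟩ h
      simp only [mem_sigma, HasAntidiagonal.mem_antidiagonal, and_true] at h ⊢
      omega
    · rintro ⟨⟨a, b⟩, ⟨c, d⟩, ⟨e, f⟩⟩ h
      simp only [mem_sigma, HasAntidiagonal.mem_antidiagonal] at h
      obtain ⟨-, rfl, rfl⟩ := h
      rfl
    · rintro ⟨⟨a, b⟩, ⟨c, d⟩, ⟨e, f⟩⟩ h
      simp only [mem_sigma, HasAntidiagonal.mem_antidiagonal] at h
      obtain ⟨-, rfl, rfl⟩ := h
      rfl
    · rintro ⟨⟨a, b⟩, ⟨c, d⟩, ⟨e, f⟩⟩ -
      rfl

lemma coeff_diag {A : Type} [Ring A] (F : PowerSeries (PowerSeries A)) (n : ℕ) :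
    PowerSeries.coeff n (diag F) =
      ∑ p ∈ antidiagonal n, PowerSeries.coeff p.1 (PowerSeries.coeff p.2 F) := by
  exact coeff_mk n fun n =>
    ∑ p ∈ antidiagonal n, PowerSeries.coeff p.1 (PowerSeries.coeff p.2 F)

lemma diag_C {A : Type} [Ring A] (r : PowerSeries A) : diag (C r) = r := by
  ext n
  rw [coeff_diag, sum_eq_single (n, 0)]
  · simp
  · rintro ⟨a, b⟩ h1 h2
    have : b ≠ 0 := by
      rintro rfl
      simp at h1
      exact h2 (by rw [h1])
    simp [coeff_C, this]
  · simp

lemma diag_X {A : Type} [Ring A] : diag (X : PowerSeries (PowerSeries A)) = X := by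
  ext n
  rw [coeff_diag]
  simp only [coeff_X]
  by_cases h : n = 1
  · subst h
    simp [Nat.antidiagonal_succ]
  · rw [if_neg h]
    refine sum_eq_zero ?_
    rintro ⟨a, b⟩ h1
    simp only [HasAntidiagonal.mem_antidiagonal] at h1
    by_cases h2 : b = 1
    · have : a ≠ 0 := by omega
      simp [h2, coeff_one, this]
    · simp [h2]

lemma const_diag {A : Type} [Ring A] (F : PowerSeries (PowerSeries A)) :
    constantCoeff (diag F) = constantCoeff (constantCoeff F) := by
  rw [← coeff_zero_eq_constantCoeff_apply, coeff_diag]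
  simp

abbrev AA (β : Type) := MonoidAlgebra ℚ (FreeMonoid β)

noncomputable def nu (β : Type) : FreeGroup β →* (PowerSeries (AA β))ˣ :=
  FreeGroup.lift fun x => U (single (FreeMonoid.of x) (1 : ℚ))

lemma nu_const {β : Type} (g : FreeGroup β) : constantCoeff (nu β g : PowerSeries (AA β)) = 1 := by
  induction g using FreeGroup.induction_on with
  | C1 => rw [map_one, Units.val_one, map_one]
  | of x =>
    rw [nu, FreeGroup.lift_apply_of]
    change constantCoeff (1 + X * C _) = _
    rw [map_add, map_mul, constantCoeff_X, zero_mul, add_zero, map_one]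
  | inv_of x h =>
    have := congrArg (fun u : (PowerSeries (AA β))ˣ => constantCoeff (u : PowerSeries (AA β)))
      (mul_inv_cancel (nu β (FreeGroup.of x)))
    simp only [Units.val_mul, map_mul, h, one_mul, Units.val_one, map_one] at this
    rwa [map_inv]
  | mul a b ha hb => rw [map_mul, Units.val_mul, map_mul, ha, hb, one_mul]

lemma nu_inj {β : Type} (g : FreeGroup β) (hg : (nu β g : PowerSeries (AA β)) - 1 = 0) : g = 1 := by
  let ι : AA β →ₐ[ℚ] MonoidAlgebra ℚ (W β) := MonoidAlgebra.lift ℚ _ _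
    (FreeMonoid.lift fun x => single (⟨[toLex (x, 0)], 0⟩ : W β) (1 : ℚ))
  have h0 : (Units.map (PowerSeries.map ι.toRingHom).toMonoidHom).comp (nu β)
      = (μ0 ℚ β).comp (FreeGroup.map some) := by
    ext1 x
    apply Units.ext
    rw [MonoidHom.comp_apply, MonoidHom.comp_apply, FreeGroup.map.of, μ0, nu,
      FreeGroup.lift_apply_of, FreeGroup.lift_apply_of]
    change PowerSeries.map ι.toRingHom (1 + X * C _) = 1 + X * C _
    simp [ι]
  have h2 : (μ0 ℚ β (FreeGroup.map some g) : PS ℚ β) = 1 := by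
    have := congrArg Units.val (DFunLike.congr_fun h0 g)
    rw [MonoidHom.comp_apply, MonoidHom.comp_apply] at this
    rw [← this]
    change PowerSeries.map ι.toRingHom (nu β g : PowerSeries (AA β)) = 1
    rw [sub_eq_zero.1 hg, map_one]
  have h1 := μ_inj (single (FreeGroup.map some g) (1 : ℚ) - single 1 1) (by
    rw [map_sub, μ_single, μ_single, one_smul, one_smul, map_one, h2, Units.val_one, sub_self])
  have h3 := MonoidAlgebra.single_left_injective (one_ne_zero (α := ℚ)) (sub_eq_zero.1 h1)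
  exact FreeGroup.map_injective (Option.some_injective β) (by rw [h3, map_one])

theorem cone_inv (β : Type) : ∃ P : Set (FreeGroup β), GCone P ∧
    ∀ f : FreeGroup β →* FreeGroup β, (∀ x, IsConj (FreeGroup.of x) (f (FreeGroup.of x))) →
      ∀ g ∈ P, f g ∈ P := by
  classical
  let _ : LinearOrder (FreeMonoid β) := linearOrderOfSTO WellOrderingRel
  refine ⟨_, ps_cone' (A := AA β) (fun a => Pos a.coeff) (fun a b ha hb => ha.add hb)
    (fun h => h.ne rfl) (fun a ha => ?_) (nu β) nu_inj nu_const, fun f hf => ?_⟩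
  · refine (Pos.total (f := a.coeff) (Set.Finite.isWF (Finsupp.hasFiniteSupport _))
      fun h => ha ?_).imp id fun h => ?_
    · ext w; exact congrFun h w
    · have : ((-a).coeff : FreeMonoid β → ℚ) = -a.coeff := by funext w; simp
      rwa [this]
  · simp only [isConj_iff] at hf
    choose w hw using hf
    let ψ : AA β →ₐ[ℚ] PowerSeries (AA β) := MonoidAlgebra.lift ℚ _ _
      (FreeMonoid.lift fun x => (nu β (w x) : PowerSeries (AA β)) *
        C (single (FreeMonoid.of x) (1 : ℚ)) * (nu β (w x)⁻¹ : PowerSeries (AA β)))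
    let Ψ : PowerSeries (AA β) →+* PowerSeries (AA β) := diag.comp (PowerSeries.map ψ.toRingHom)
    have hX : Ψ X = X := by simp [Ψ, diag_X]
    have h0 : (Units.map Ψ.toMonoidHom).comp (nu β) = (nu β).comp f := by
      ext1 x
      apply Units.ext
      rw [MonoidHom.comp_apply, MonoidHom.comp_apply, ← hw, map_mul, map_mul, Units.val_mul,
        Units.val_mul]
      have e : (nu β (FreeGroup.of x) : PowerSeries (AA β))
          = 1 + X * C (single (FreeMonoid.of x) (1 : ℚ)) := by
        rw [nu, FreeGroup.lift_apply_of]; rfl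
      change Ψ (nu β (FreeGroup.of x) : PowerSeries (AA β)) = _
      rw [e, map_add, map_mul, hX, map_one, mul_add, add_mul, mul_one, ← Units.val_mul, ← map_mul,
        mul_inv_cancel, map_one, Units.val_one, ← mul_assoc, (commute_X _).eq, mul_assoc X,
        mul_assoc X]
      simp [Ψ, ψ, diag_C]
    have h1 : ∀ a, constantCoeff (ψ a) = a := by
      intro a
      have : ((constantCoeff : PowerSeries (AA β) →+* AA β).comp ψ.toRingHom) = RingHom.id _ := by
        apply MonoidAlgebra.ringHom_ext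
        · intro r
          have := ψ.commutes r
          change constantCoeff (ψ (algebraMap ℚ _ r)) = algebraMap ℚ _ r
          rw [this, PowerSeries.algebraMap_apply, constantCoeff_C]
        · intro m
          change constantCoeff (ψ (single m 1)) = single m 1
          induction m using FreeMonoid.inductionOn' with
          | one => rw [← MonoidAlgebra.one_def, map_one, map_one]
          | of_mul x m ih =>
            rw [← one_mul (1 : ℚ), ← single_mul_single, map_mul, map_mul, ih]
            simp [ψ, nu_const, -map_inv]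
      exact DFunLike.congr_fun this a
    rintro g ⟨d, s, h2, h3⟩
    refine ⟨d, Ψ s, ?_, ?_⟩
    · have := congrArg Units.val (DFunLike.congr_fun h0 g)
      rw [MonoidHom.comp_apply, MonoidHom.comp_apply] at this
      rw [← this, ← hX, ← map_pow, ← map_mul, ← h2, map_sub, map_one]
      rfl
    · have : constantCoeff (Ψ s) = constantCoeff s := by
        change constantCoeff (diag _) = _
        rw [const_diag, ← coeff_zero_eq_constantCoeff_apply (PowerSeries.map _ s), PowerSeries.coeff_map,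
          coeff_zero_eq_constantCoeff_apply]
        exact h1 _
      rwa [this]

end Pool.Agent.H.MP_6f07cb_gt
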